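import Pool.Agent.K.MP_68214b_ag.C4

open Polynomial

namespace Pool.Agent.Results.MP_68214b_ag.GoodPrime

/-- the orbit of x under g is infinite -/
def Wand (g : ℂ[X]) (x : ℂ) : Prop := (Set.range fun n => (fun z => g.eval z)^[n] x).Infinite

/-- the condition at one valuation ring of positive residue characteristic -/
def Stab (g : ℂ[X]) (γ : ℂ) : Prop :=
  ∃ (B : ValuationSubring ℂ) (p : ℕ), (p.Prime ∧ B.valuation (p : ℂ) < 1) ∧
    (∀ k, B.valuation (g.coeff k) ≤ 1) ∧ (1 < B.valuation γ ∨ ∀ j x, B.valuation x ≤ 1 →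
      B.valuation (g.eval x - (fun z => g.eval z)^[j + 1] γ) < 1 →
      B.valuation (x - (fun z => g.eval z)^[j] γ) < 1)

/-- conditions on the critical points with infinite orbit -/
def Good (g : ℂ[X]) : Prop :=
  g.Monic ∧ 2 ≤ g.natDegree ∧ ∀ γ, g.derivative.eval γ = 0 → Wand g γ → Stab g γ ∧
    ((∃ b c, g = (X - C b) ^ g.natDegree + C c) ∨
      ((g.derivative.derivative.eval γ ≠ 0 ∧
        ∀ δ, g.derivative.eval δ = 0 → g.eval δ = g.eval γ → δ = γ) ∧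
      (g.natDegree = 3 ∨ g.natDegree.Coprime 6 ∨
        ∀ δ, g.derivative.eval δ = 0 → Wand g δ → δ = γ)))

/-- reduction to a tame power map whose degree has an odd prime factor -/
def Tame (A : ValuationSubring ℂ) (g : ℂ[X]) : Prop :=
  g.Monic ∧ A.valuation (g.natDegree : ℂ) = 1 ∧ (∀ k < g.natDegree, A.valuation (g.coeff k) < 1) ∧
    ∃ q, q.Prime ∧ q ≠ 2 ∧ q ∣ g.natDegree

/-- the endomorphism -/
noncomputable def Phi {N M : ℕ} (f : Fin N → ℂ[X]) (G : Fin M → MvPolynomial (Fin N ⊕ Fin M) ℂ)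
    (p : Fin N ⊕ Fin M → ℂ) : Fin N ⊕ Fin M → ℂ :=
  Sum.elim (fun i => (f i).eval (p (.inl i))) fun j => MvPolynomial.eval p (G j)

/-- the common zeros of a set of polynomials -/
def Z {J : Type} (I : Set (MvPolynomial J ℂ)) : Set (J → ℂ) :=
  {p | ∀ F ∈ I, MvPolynomial.eval p F = 0}

theorem result {N M : ℕ} (f : Fin N → ℂ[X]) (G : Fin M → MvPolynomial (Fin N ⊕ Fin M) ℂ)
    (c : ℂ) (hc : c ≠ 0)
    (hG : (Matrix.of fun j k => MvPolynomial.pderiv (Sum.inr k) (G j)).det = MvPolynomial.C c)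
    (A : ValuationSubring ℂ)
    (hf : ∀ i, ∃ a b : ℂ, ∃ g : ℂ[X], a ≠ 0 ∧ (f i).comp (C a * X + C b) = C a * g + C b ∧
      (∀ k, IsAlgebraic ℚ (g.coeff k)) ∧ (Good g ∨ Tame A g))
    (α : Fin N ⊕ Fin M → ℂ) (I : Set (MvPolynomial (Fin N ⊕ Fin M) ℂ)) :
    (∃ l ≥ 1, ∃ n0, ∀ n ≥ n0, ((Phi f G)^[n] α ∈ Z I ↔ (Phi f G)^[n + l] α ∈ Z I)) ∧
    ((¬ ∃ J, (Z J).Infinite ∧ Z J ⊆ Z I ∧ (∃ k ≥ 1, Set.MapsTo (Phi f G)^[k] (Z J) (Z J)) ∧
        ∃ n, (Phi f G)^[n] α ∈ Z J) →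
      (Z I ∩ Set.range fun n => (Phi f G)^[n] α).Finite) := by
  obtain ⟨l, hl, n0, h⟩ := Pool.Agent.P.MP_68214b_ag.DP.mainP f G hc hG
    (fun n => (Phi f G)^[n] α) (fun n i => by rw [Function.iterate_succ_apply']; rfl)
    (fun n j => by rw [Function.iterate_succ_apply']; rfl) (A0 := A) hf I
  exact ⟨⟨l, hl, n0, h⟩, Pool.Agent.P.MP_68214b_ag.DP.q1
    (Sum.elim (fun i => (f i).toMvPolynomial (.inl i)) G) α _ (Phi f G)
    (by rintro p (i | j); exacts [(MvPolynomial.eval_toMvPolynomial p _ _).symm, rfl]) Z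
    (fun _ _ => Iff.rfl) hl h⟩

end Pool.Agent.Results.MP_68214b_ag.GoodPrime
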