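import Pool.Agent.K.MP_68214b_ag.C5

open Filter Polynomial Pool.Agent.P.MP_68214b_ag

namespace Pool.Agent.Results.MP_68214b_ag.HolonomicCones

/-- the polynomial self-map (x, y, z) ↦ (x + 1, P(x) y + Q(x) z, y) of complex 3-space -/
noncomputable def Phi (P Q : ℂ[X]) (p : Fin 3 → ℂ) : Fin 3 → ℂ :=
  ![p 0 + 1, P.eval (p 0) * p 1 + Q.eval (p 0) * p 2, p 1]

/-- the common zeros of a set of polynomials -/
def Z (I : Set (MvPolynomial (Fin 3) ℂ)) : Set (Fin 3 → ℂ) :=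
  {p | ∀ f ∈ I, MvPolynomial.eval p f = 0}

/-- Hermite type, or Laguerre and Meixner-Pollaczek type; x is the starting abscissa -/
def Fam (P Q : ℂ[X]) (x : ℂ) : Prop :=
  (∃ (β γ : ℂ) (r : ℚ), β ≠ 0 ∧ γ ≠ 0 ∧ P = C β ∧ Q = C γ * (X - C (x - r))) ∨
  ∃ (α β γ : ℂ) (r s : ℚ), γ ≠ 0 ∧ P = C α * X + C β ∧
    Q = C γ * (X - C (x - r)) * (X - C (x - s)) ∧
    ∀ q : ℚ, P.eval (x - (r + s + 1) / 2) ^ 2 ≠ q ^ 2 * (α ^ 2 + 4 * γ)

theorem result (P Q : ℂ[X]) (α : Fin 3 → ℂ) (hF : Fam P Q (α 0))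
    (F : MvPolynomial (Fin 3) ℂ) (k : ℕ) (F0 : F ≠ 0) (hk : F.IsWeightedHomogeneous ![0, 1, 1] k) :
    ((∀ᶠ n in atTop, (Phi P Q)^[n] α 1 = 0 ∧ (Phi P Q)^[n] α 2 = 0) ∨
      ∀ᶠ n in atTop, MvPolynomial.eval ((Phi P Q)^[n] α) F ≠ 0) ∧
    ∀ I, Z I ⊆ Z {F} →
      (¬ ∃ J, (Z J).Infinite ∧ Z J ⊆ Z I ∧ (∃ l ≥ 1, Set.MapsTo (Phi P Q)^[l] (Z J) (Z J)) ∧
        ∃ n, (Phi P Q)^[n] α ∈ Z J) →
      (Z I ∩ Set.range fun n => (Phi P Q)^[n] α).Finite := by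
  have x0 : ∀ n : ℕ, (Phi P Q)^[n] α 0 = α 0 + n := fun n => by
    induction n with
    | zero => simp
    | succ n ih => rw [Function.iterate_succ_apply']; simp [Phi, ih, add_assoc]
  have e : ∀ n : ℕ, (Phi P Q)^[n + 1] α 2 = (Phi P Q)^[n] α 1 := fun n => by
    rw [Function.iterate_succ_apply']; rfl
  obtain ⟨c, hc, hcF⟩ := form_coeff hk F0
  have one : (∀ᶠ n in atTop, (Phi P Q)^[n] α 1 = 0 ∧ (Phi P Q)^[n] α 2 = 0) ∨
      ∀ᶠ n in atTop, MvPolynomial.eval ((Phi P Q)^[n] α) F ≠ 0 := by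
    refine (cone_fam (u := fun n => (Phi P Q)^[n] α 2) hF (fun n => ?_) hc).imp (fun h => ?_)
      fun h => h.mono fun n hn => ?_
    · rw [show n + 2 = n + 1 + 1 from rfl, e, e, Function.iterate_succ_apply']
      simp [Phi, x0]
    · filter_upwards [h, (tendsto_add_atTop_nat 1).eventually h] with n h1 h2
      exact ⟨(e n).symm.trans h2, h1⟩
    · rw [← hcF, e, ← x0] at hn
      refine fun h => hn (Eq.trans ?_ h)
      congr 2
      ext i; fin_cases i <;> rfl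
  refine ⟨one, fun I hI h => by_contra fun hinf => h ?_⟩
  have often : ∀ N, ∃ n ≥ N, (Phi P Q)^[n] α ∈ Z I := fun N => by
    by_contra! H
    refine hinf (((Set.finite_lt_nat N).image fun n => (Phi P Q)^[n] α).subset ?_)
    rintro _ ⟨h, n, rfl⟩
    exact ⟨n, not_le.1 fun hn => H n hn h, rfl⟩
  rcases one with h1 | h1
  swap
  · obtain ⟨N, hN⟩ := eventually_atTop.1 h1
    obtain ⟨n, hn, h2⟩ := often N
    exact absurd (hI h2 F rfl) (hN n hn)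
  obtain ⟨N, hN⟩ := eventually_atTop.1 h1
  have ax : ∀ p, p ∈ Z {MvPolynomial.X 1, MvPolynomial.X 2} ↔ p 1 = 0 ∧ p 2 = 0 := fun p => by
    simp [Z]
  refine ⟨{MvPolynomial.X 1, MvPolynomial.X 2}, ?_, fun p hp f hf => ?_,
    ⟨1, le_rfl, fun p hp => ?_⟩, N, (ax _).2 (hN N le_rfl)⟩
  · refine Set.infinite_of_injective_forall_mem (f := fun n : ℕ => ![(n : ℂ), 0, 0])
      (fun i j h => ?_) fun n => (ax _).2 ⟨rfl, rfl⟩
    simpa using congrFun h 0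
  · obtain ⟨p1, p2⟩ := (ax p).1 hp
    set g : ℂ[X] := MvPolynomial.aeval ![X, 0, 0] f with hg
    have ev : ∀ q : Fin 3 → ℂ, q 1 = 0 → q 2 = 0 → MvPolynomial.eval q f = g.eval (q 0) :=
      fun q q1 q2 => by
        rw [hg, ← Polynomial.coe_aeval_eq_eval, ← AlgHom.comp_apply, MvPolynomial.comp_aeval,
          MvPolynomial.aeval_eq_eval]
        congr 2
        funext i; fin_cases i <;> simp [q1, q2]
    have g0 : g = 0 := by
      refine eq_zero_of_infinite_isRoot g (Set.infinite_of_forall_exists_gt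
        (s := {n : ℕ | g.IsRoot (α 0 + n)}) (fun M => ?_) |>.image
          (f := fun n : ℕ => α 0 + n) (fun a _ b _ h => by simpa using h) |>.mono ?_)
      · obtain ⟨n, hn, h2⟩ := often (max N (M + 1))
        obtain ⟨q1, q2⟩ := hN n (le_of_max_le_left hn)
        exact ⟨n, by simpa [x0, ev _ q1 q2] using h2 f hf, le_of_max_le_right hn⟩
      · rintro _ ⟨n, hn, rfl⟩; exact hn
    rw [ev p p1 p2, g0, eval_zero]
  · obtain ⟨p1, p2⟩ := (ax p).1 hp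
    exact (ax _).2 ⟨by simp [Phi, p1, p2], by simp [Phi, p1]⟩

end Pool.Agent.Results.MP_68214b_ag.HolonomicCones
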