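import Pool.Agent.K.MP_68214b_ag.C6

open Polynomial

namespace Pool.Agent.Results.MP_68214b_ag.SplitGeneric

/-- affinely conjugate to X ^ d or to plus or minus the Chebyshev polynomial of degree d -/
def Special (f : ℂ[X]) : Prop :=
  ∃ a b : ℂ, a ≠ 0 ∧ ∃ T : ℂ[X],
    (T = X ^ f.natDegree ∨ T = Chebyshev.T ℂ f.natDegree ∨ T = -Chebyshev.T ℂ f.natDegree) ∧
    f.comp (C a * X + C b) = C a * T + C b

/-- the split polynomial map -/
noncomputable def Phi {N : ℕ} (f : Fin N → ℂ[X]) (p : Fin N → ℂ) : Fin N → ℂ :=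
  fun i => (f i).eval (p i)

/-- the common zeros of a set of polynomials -/
def Z {N : ℕ} (I : Set (MvPolynomial (Fin N) ℂ)) : Set (Fin N → ℂ) :=
  {p | ∀ F ∈ I, MvPolynomial.eval p F = 0}

/-- the sum of the terms of F of largest weighted degree -/
noncomputable def top {N : ℕ} (w : Fin N → ℕ) (F : MvPolynomial (Fin N) ℂ) :
    MvPolynomial (Fin N) ℂ :=
  MvPolynomial.weightedHomogeneousComponent w (MvPolynomial.weightedTotalDegree w F) F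

theorem result {N d : ℕ} (hd : 2 ≤ d) (f : Fin N → ℂ[X]) (α : Fin N → ℂ)
    (hf : ∀ i k, IsAlgebraic ℚ ((f i).coeff k)) (hα : ∀ i, IsAlgebraic ℚ (α i))
    (x : Fin N → ℕ → ℂ) (hx : ∀ i n, x i n = (Phi f)^[n] α i)
    (W : Set (Fin N)) (hW : W = {i | (Set.range (x i)).Infinite})
    (hdeg : ∀ i ∈ W, (f i).natDegree ≤ d) (s : ℂ →+* ℂ) (E : Set (Fin N))
    (hE : E = {i | (f i).natDegree = d ∧ ¬ ∃ M : ℝ, ∀ n, ‖s (x i n)‖ ≤ M})
    (h0 : E.Nonempty) (h2 : {i ∈ E | Special (f i)}.ncard ≤ 2)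
    (I : Set (MvPolynomial (Fin N) ℂ)) (w : Fin N → ℕ) (hw : ∀ i, 0 < w i)
    (hV : ∀ z : Fin N → ℂ, z ≠ 0 →
      (∀ i, z i ≠ 0 → i ∈ E ∧ ∃ k ≥ 1, ((f i).leadingCoeff * z i ^ (d - 1)) ^ k = 1) →
      (∀ i j, z i ≠ 0 → z j ≠ 0 →
        ∃ G : ℂ[X][X], G ≠ 0 ∧ ∃ n0, ∀ n ≥ n0, G.evalEval (x i n) (x j n) = 0) →
      3 ≤ {i ∈ W | z i = 0}.ncard + {i ∈ W | z i = 0 ∧ (i ∉ E ∨ Special (f i))}.ncard →
      ∃ F, (∀ p ∈ Z I, MvPolynomial.eval p F = 0) ∧ MvPolynomial.eval z (top w F) ≠ 0) :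
    (∃ l ≥ 1, ∃ n0, ∀ n ≥ n0, ((Phi f)^[n] α ∈ Z I ↔ (Phi f)^[n + l] α ∈ Z I)) ∧
    ((¬ ∃ J, (Z J).Infinite ∧ Z J ⊆ Z I ∧ (∃ k ≥ 1, Set.MapsTo (Phi f)^[k] (Z J) (Z J)) ∧
        ∃ n, (Phi f)^[n] α ∈ Z J) →
      (Z I ∩ Set.range fun n => (Phi f)^[n] α).Finite) := by
  classical
  obtain rfl : x = fun i n => (Phi f)^[n] α i := funext₂ hx
  obtain ⟨l, hl, n0, h⟩ := Pool.Agent.P.MP_68214b_ag.DS.mainU f (fun i n => (Phi f)^[n] α i)
    (fun i n => by rw [Function.iterate_succ_apply']; rfl) hd hf hα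
    (fun i hi => hdeg i (hW ▸ hi)) s (· ∈ E) (fun i => by rw [hE]; rfl) h0
    (fun i j k a b c e1 e2 e3 => by
      by_contra! hc
      have := Set.ncard_le_ncard (s := {i, j, k}) (t := {i ∈ E | Special (f i)}) (by
        rintro _ (rfl | rfl | rfl)
        exacts [⟨a, hc.1⟩, ⟨b, hc.2.1⟩, ⟨c, hc.2.2⟩])
      rw [Set.ncard_eq_three.2 ⟨i, j, k, e1, e2, e3, rfl⟩] at this
      omega) hw I fun z z0 hz hp => by
      by_cases h3 : 3 ≤ {i ∈ W | z i = 0}.ncard +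
        {i ∈ W | z i = 0 ∧ (i ∉ E ∨ Special (f i))}.ncard
      · exact Or.inl (hV z z0 hz (fun i j a b => (hp i j a b).imp fun G e =>
          ⟨e.1, Filter.eventually_atTop.1 e.2⟩) h3)
      have mem : ∀ i, z i = 0 → (Set.range fun n => (Phi f)^[n] α i).Finite ∨
          i ∈ {i ∈ W | z i = 0} := fun i hi =>
        (Set.finite_or_infinite _).imp_right fun e => ⟨hW ▸ e, hi⟩
      refine Or.inr ?_
      by_cases h1 : {i ∈ W | z i = 0}.ncard ≤ 1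
      · obtain ⟨a, -⟩ := h0
        rcases (Set.ncard_le_one_iff_eq (Set.toFinite _)).1 h1 with e | ⟨b, e⟩
        · exact Or.inl ⟨a, fun i hi => (mem i hi).imp_right fun t => by simp [e] at t⟩
        · exact Or.inl ⟨b, fun i hi => (mem i hi).imp_right fun t => by simpa [e] using t⟩
      obtain ⟨b, c, -, e⟩ := Set.ncard_eq_two.1 (show {i ∈ W | z i = 0}.ncard = 2 by omega)
      have e0 := (Set.ncard_eq_zero (Set.toFinite _)).1
        (show {i ∈ W | z i = 0 ∧ (i ∉ E ∨ Special (f i))}.ncard = 0 by omega)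
      have g : ∀ i ∈ {i ∈ W | z i = 0}, i ∈ E ∧ ¬ Special (f i) := fun i hi => by
        have : ¬ (i ∉ E ∨ Special (f i)) := fun t => Set.notMem_empty i (e0 ▸ ⟨hi.1, hi.2, t⟩)
        tauto
      exact Or.inr ⟨b, c, g b (by simp [e]), g c (by simp [e]),
        fun i hi => (mem i hi).imp_right fun t => by simpa [e] using t⟩
  exact ⟨⟨l, hl, n0, h⟩, Pool.Agent.P.MP_68214b_ag.DS.q1_of_ap f α _ (Phi f) (fun _ _ => rfl) Z
    (fun _ _ => Iff.rfl) hl h⟩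

end Pool.Agent.Results.MP_68214b_ag.SplitGeneric
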