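import Pool.Agent.K.MP_68214b_ag.C7

open Polynomial

namespace Pool.Agent.Results.MP_68214b_ag.SplitSeparated

/-- affinely conjugate to X ^ d or to plus or minus the Chebyshev polynomial of degree d -/
def Special (f : ℂ[X]) : Prop :=
  ∃ a b : ℂ, a ≠ 0 ∧ ∃ T : ℂ[X],
    (T = X ^ f.natDegree ∨ T = Chebyshev.T ℂ f.natDegree ∨ T = -Chebyshev.T ℂ f.natDegree) ∧
    f.comp (C a * X + C b) = C a * T + C b

/-- the split polynomial map -/
noncomputable def Phi {N : ℕ} (f : Fin N → ℂ[X]) (p : Fin N → ℂ) : Fin N → ℂ :=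
  fun i => (f i).eval (p i)

/-- the common zeros of a set of polynomials -/
def Z {N : ℕ} (I : Set (MvPolynomial (Fin N) ℂ)) : Set (Fin N → ℂ) :=
  {p | ∀ F ∈ I, MvPolynomial.eval p F = 0}

/-- the common zeros of a set of separated polynomials -/
def V {N : ℕ} (Q : Set (Fin N → ℂ[X])) : Set (Fin N → ℂ) :=
  {p | ∀ q ∈ Q, ∑ i, (q i).eval (p i) = 0}

theorem result {N : ℕ} (f : Fin N → ℂ[X]) (α : Fin N → ℂ)
    (hf : ∀ i k, IsAlgebraic ℚ ((f i).coeff k)) (hα : ∀ i, IsAlgebraic ℚ (α i))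
    (hw : ∀ d ≥ 2,
      {i | (f i).natDegree = d ∧ (Set.range fun n => (Phi f)^[n] α i).Infinite ∧
        Special (f i)}.ncard +
      2 * {i | (f i).natDegree = d ∧ (Set.range fun n => (Phi f)^[n] α i).Infinite ∧
        ∀ s : ℂ →+* ℂ, ∃ M : ℝ, ∀ n, ‖s ((Phi f)^[n] α i)‖ ≤ M}.ncard ≤ 3)
    (Q : Set (Fin N → ℂ[X])) :
    (∃ l ≥ 1, ∃ n0, ∀ n ≥ n0, ((Phi f)^[n] α ∈ V Q ↔ (Phi f)^[n + l] α ∈ V Q)) ∧
    ((¬ ∃ J, (Z J).Infinite ∧ Z J ⊆ V Q ∧ (∃ k ≥ 1, Set.MapsTo (Phi f)^[k] (Z J) (Z J)) ∧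
        ∃ n, (Phi f)^[n] α ∈ Z J) →
      (V Q ∩ Set.range fun n => (Phi f)^[n] α).Finite) := by
  have e : ∀ n i, (Phi f)^[n] α i = (fun z => (f i).eval z)^[n] (α i) := fun n i => by
    induction n with
    | zero => rfl
    | succ n ih => rw [Function.iterate_succ_apply', Function.iterate_succ_apply', ← ih]; rfl
  simp only [e] at hw
  obtain ⟨l, hl, n0, h⟩ := Pool.Agent.P.MP_68214b_ag.DS.mainH f α hf hα hw Q
  have h1 : ∀ n ≥ n0, ((Phi f)^[n] α ∈ V Q ↔ (Phi f)^[n + l] α ∈ V Q) := fun n hn => by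
    simpa only [V, Set.mem_ofPred, e] using h n hn
  refine ⟨⟨l, hl, n0, h1⟩, ?_⟩
  have ev : ∀ (p : Fin N → ℂ) (q : Fin N → ℂ[X]), MvPolynomial.eval p
      (∑ i, aeval (MvPolynomial.X i : MvPolynomial (Fin N) ℂ) (q i)) = ∑ i, (q i).eval (p i) :=
    fun p q => by
      rw [map_sum]
      refine Finset.sum_congr rfl fun i _ => ?_
      rw [← MvPolynomial.aeval_eq_eval, ← aeval_algHom_apply, MvPolynomial.aeval_X,
        coe_aeval_eq_eval]
  have hV : V Q = Z ((fun q : Fin N → ℂ[X] =>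
      ∑ i, aeval (MvPolynomial.X i : MvPolynomial (Fin N) ℂ) (q i)) '' Q) := by
    ext p
    simp only [V, Z, Set.mem_ofPred, Set.forall_mem_image, ev]
  rw [hV] at h1 ⊢
  exact Pool.Agent.P.MP_68214b_ag.DS.q1_of_ap f α _ (Phi f) (fun _ _ => rfl) Z (fun _ _ => Iff.rfl)
    hl h1

end Pool.Agent.Results.MP_68214b_ag.SplitSeparated
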